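import Mathlib

/-! PM-EXT (helper45, for helper506): category level lemmas. -/

set_option autoImplicit false

open CategoryTheory Abelian

universe w v u t

namespace Pool.Agent.W45.PM

section one

variable {C : Type u} [Category.{v} C] [Abelian C] [HasExt.{w} C]
variable {X1 X2 X3 : C} (i : X1 ⟶ X2) (p : X2 ⟶ X3) (z : i ≫ p = 0)
  (h : (ShortComplex.mk i p z).ShortExact)

/-- the connecting class -/
noncomputable def dl : Ext X3 X1 1 := h.extClass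

variable (Y : C)

lemma dl_surj [Projective X2] {n m : ℕ} (hnm : 1 + n = m) (e : Ext X3 Y m) :
    ∃ e' : Ext X1 Y n, (dl i p z h).comp e' hnm = e := by
  subst hnm
  refine Ext.contravariant_sequence_exact₃ h Y e ?_ rfl
  have : ∀ (k : ℕ) (x : Ext X2 Y (k + 1)), x = 0 := fun k x => Ext.eq_zero_of_projective x
  have h2 : ∀ (k : ℕ), k = n + 1 → ∀ x : Ext X2 Y k, x = 0 := by
    rintro k rfl x
    exact this n x
  exact h2 (1 + n) (add_comm 1 n) _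

lemma dl_inj [Projective X2] {n m : ℕ} (hnm : 1 + (n + 1) = m) (e' : Ext X1 Y (n + 1))
    (he : (dl i p z h).comp e' hnm = 0) : e' = 0 := by
  obtain ⟨x₂, hx₂⟩ := Ext.contravariant_sequence_exact₁ h Y e' hnm he
  have : x₂ = 0 := Ext.eq_zero_of_projective x₂
  rw [← hx₂, this, Ext.comp_zero]

lemma dl_inj0 (f : X1 ⟶ Y) {m : ℕ} (hm : 1 + 0 = m)
    (hf : (dl i p z h).comp (Ext.mk₀ f) hm = 0) : ∃ g : X2 ⟶ Y, i ≫ g = f := by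
  obtain ⟨x₂, hx₂⟩ := Ext.contravariant_sequence_exact₁ h Y (Ext.mk₀ f) hm hf
  obtain ⟨g, rfl⟩ := Ext.homEquiv₀.symm.surjective x₂
  refine ⟨g, ?_⟩
  have h3 : (Ext.mk₀ i).comp (Ext.mk₀ g) (zero_add 0) = Ext.mk₀ f := hx₂
  rw [Ext.mk₀_comp_mk₀] at h3
  exact Ext.homEquiv₀.symm.injective h3

lemma dl_comp (g : X2 ⟶ Y) {m : ℕ} (hm : 1 + 0 = m) :
    (dl i p z h).comp (Ext.mk₀ (i ≫ g)) hm = 0 := by
  subst hm
  rw [← Ext.mk₀_comp_mk₀]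
  exact h.extClass_comp_assoc (Ext.mk₀ g)

include z h in
lemma sub_succ [Projective X2] (n : ℕ) (hs : Subsingleton (Ext X1 Y n)) :
    Subsingleton (Ext X3 Y (n + 1)) := by
  refine subsingleton_of_forall_eq 0 fun e => ?_
  obtain ⟨e', rfl⟩ := dl_surj i p z h Y (add_comm 1 n) e
  rw [Subsingleton.elim e' 0, Ext.comp_zero]

include z h in
lemma sub_one [Projective X2] (hs : ∀ f : X1 ⟶ Y, ∃ g : X2 ⟶ Y, i ≫ g = f) :
    Subsingleton (Ext X3 Y 1) := by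
  refine subsingleton_of_forall_eq 0 fun e => ?_
  obtain ⟨e', rfl⟩ := dl_surj i p z h Y (n := 0) (by norm_num) e
  obtain ⟨f, rfl⟩ := Ext.homEquiv₀.symm.surjective e'
  obtain ⟨g, rfl⟩ := hs f
  exact dl_comp i p z h Y g _

end one

section four

variable {k : Type t} [Field k]
variable {C : Type u} [Category.{v} C] [Abelian C] [Linear k C] [HasExt.{w} C]
variable {T Z0 Z1 Z2 Q P0 P1 P2 P3 : C} [Projective P0] [Projective P1] [Projective P2]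
  [Projective P3]
  (i0 : Z0 ⟶ P0) (p0 : P0 ⟶ T) (z0 : i0 ≫ p0 = 0) (h0 : (ShortComplex.mk i0 p0 z0).ShortExact)
  (i1 : Z1 ⟶ P1) (p1 : P1 ⟶ Z0) (z1 : i1 ≫ p1 = 0) (h1 : (ShortComplex.mk i1 p1 z1).ShortExact)
  (i2 : Z2 ⟶ P2) (p2 : P2 ⟶ Z1) (z2 : i2 ≫ p2 = 0) (h2 : (ShortComplex.mk i2 p2 z2).ShortExact)
  (i3 : Q ⟶ P3) (p3 : P3 ⟶ Z2) (z3 : i3 ≫ p3 = 0) (h3 : (ShortComplex.mk i3 p3 z3).ShortExact)
  (Y : C)

/-- the iterated connecting map -/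
noncomputable def Phi (f : Q ⟶ Y) : Ext T Y 4 :=
  (dl i0 p0 z0 h0).comp ((dl i1 p1 z1 h1).comp ((dl i2 p2 z2 h2).comp
    ((dl i3 p3 z3 h3).comp (Ext.mk₀ f) (show 1 + 0 = 1 by norm_num))
    (show 1 + 1 = 2 by norm_num)) (show 1 + 2 = 3 by norm_num)) (show 1 + 3 = 4 by norm_num)

omit [Linear k C] [Projective P0] [Projective P1] [Projective P2] [Projective P3] in
lemma Phi_add (f g : Q ⟶ Y) : Phi i0 p0 z0 h0 i1 p1 z1 h1 i2 p2 z2 h2 i3 p3 z3 h3 Y (f + g) =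
    Phi i0 p0 z0 h0 i1 p1 z1 h1 i2 p2 z2 h2 i3 p3 z3 h3 Y f +
    Phi i0 p0 z0 h0 i1 p1 z1 h1 i2 p2 z2 h2 i3 p3 z3 h3 Y g := by
  unfold Phi
  rw [Ext.mk₀_add, Ext.comp_add, Ext.comp_add, Ext.comp_add, Ext.comp_add]

omit [Projective P0] [Projective P1] [Projective P2] [Projective P3] in
lemma Phi_smul (c : k) (f : Q ⟶ Y) :
    Phi i0 p0 z0 h0 i1 p1 z1 h1 i2 p2 z2 h2 i3 p3 z3 h3 Y (c • f) =
    c • Phi i0 p0 z0 h0 i1 p1 z1 h1 i2 p2 z2 h2 i3 p3 z3 h3 Y f := by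
  unfold Phi
  rw [Ext.mk₀_smul, Ext.comp_smul, Ext.comp_smul, Ext.comp_smul, Ext.comp_smul]

omit [Linear k C] in
lemma Phi_surj (e : Ext T Y 4) :
    ∃ f : Q ⟶ Y, Phi i0 p0 z0 h0 i1 p1 z1 h1 i2 p2 z2 h2 i3 p3 z3 h3 Y f = e := by
  obtain ⟨e1, rfl⟩ := dl_surj i0 p0 z0 h0 Y (show 1 + 3 = 4 by norm_num) e
  obtain ⟨e2, rfl⟩ := dl_surj i1 p1 z1 h1 Y (show 1 + 2 = 3 by norm_num) e1
  obtain ⟨e3, rfl⟩ := dl_surj i2 p2 z2 h2 Y (show 1 + 1 = 2 by norm_num) e2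
  obtain ⟨e4, rfl⟩ := dl_surj i3 p3 z3 h3 Y (show 1 + 0 = 1 by norm_num) e3
  obtain ⟨f, rfl⟩ := Ext.homEquiv₀.symm.surjective e4
  exact ⟨f, rfl⟩

omit [Linear k C] [Projective P3] in
lemma Phi_eq_zero (f : Q ⟶ Y)
    (hf : Phi i0 p0 z0 h0 i1 p1 z1 h1 i2 p2 z2 h2 i3 p3 z3 h3 Y f = 0) :
    ∃ g : P3 ⟶ Y, i3 ≫ g = f := by
  unfold Phi at hf
  have a1 := dl_inj i0 p0 z0 h0 Y (n := 2) _ _ hf
  have a2 := dl_inj i1 p1 z1 h1 Y (n := 1) _ _ a1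
  have a3 := dl_inj i2 p2 z2 h2 Y (n := 0) _ _ a2
  exact dl_inj0 i3 p3 z3 h3 Y f _ a3

omit [Linear k C] [Projective P0] [Projective P1] [Projective P2] [Projective P3] in
lemma Phi_comp (g : P3 ⟶ Y) :
    Phi i0 p0 z0 h0 i1 p1 z1 h1 i2 p2 z2 h2 i3 p3 z3 h3 Y (i3 ≫ g) = 0 := by
  unfold Phi
  rw [dl_comp, Ext.comp_zero, Ext.comp_zero, Ext.comp_zero]

include h0 h1 h2 h3 in
/-- the conclusion -/
theorem main_cat (hHom : ∀ f : T ⟶ Y, f = 0)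
    (E0 : ∀ f : Z0 ⟶ Y, ∃ g : P0 ⟶ Y, i0 ≫ g = f)
    (E1 : ∀ f : Z1 ⟶ Y, ∃ g : P1 ⟶ Y, i1 ≫ g = f)
    (E2 : ∀ f : Z2 ⟶ Y, ∃ g : P2 ⟶ Y, i2 ≫ g = f) [Projective Q]
    (v : Q ⟶ Y) (hv : ∀ g : P3 ⟶ Y, i3 ≫ g ≠ v)
    (hw : ∀ f : Q ⟶ Y, ∃ (c : k) (g : P3 ⟶ Y), f = c • v + i3 ≫ g) :
    ¬ HasProjectiveDimensionLT T 4 ∧
    (∀ i, i ≠ 4 → Subsingleton (Ext T Y i)) ∧
    Module.finrank k (Ext T Y 4) = 1 := by
  have hfin : Module.finrank k (Ext T Y 4) = 1 := by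
    rw [finrank_eq_one_iff']
    refine ⟨Phi i0 p0 z0 h0 i1 p1 z1 h1 i2 p2 z2 h2 i3 p3 z3 h3 Y v, ?_, ?_⟩
    · intro hzero
      obtain ⟨g, hg⟩ := Phi_eq_zero i0 p0 z0 h0 i1 p1 z1 h1 i2 p2 z2 h2 i3 p3 z3 h3 Y v hzero
      exact hv g hg
    · intro e
      obtain ⟨f, rfl⟩ := Phi_surj i0 p0 z0 h0 i1 p1 z1 h1 i2 p2 z2 h2 i3 p3 z3 h3 Y e
      obtain ⟨c, g, rfl⟩ := hw f
      refine ⟨c, ?_⟩
      rw [Phi_add, Phi_smul, Phi_comp, add_zero]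
  refine ⟨?_, ?_, hfin⟩
  · intro hlt
    have hs : Subsingleton (Ext T Y 4) := HasProjectiveDimensionLT.subsingleton T 4 4 le_rfl Y
    have := Module.finrank_zero_of_subsingleton (R := k) (M := Ext T Y 4)
    omega
  · intro n hn
    have s0 : Subsingleton (Ext T Y 0) := by
      refine subsingleton_of_forall_eq 0 fun e => ?_
      obtain ⟨f, rfl⟩ := Ext.homEquiv₀.symm.surjective e
      rw [hHom f]
      exact Ext.mk₀_zero _ _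
    have s1 : Subsingleton (Ext T Y 1) := sub_one i0 p0 z0 h0 Y E0
    have s1' : Subsingleton (Ext Z0 Y 1) := sub_one i1 p1 z1 h1 Y E1
    have s1'' : Subsingleton (Ext Z1 Y 1) := sub_one i2 p2 z2 h2 Y E2
    have s2 : Subsingleton (Ext T Y 2) := sub_succ i0 p0 z0 h0 Y 1 s1'
    have s2' : Subsingleton (Ext Z0 Y 2) := sub_succ i1 p1 z1 h1 Y 1 s1''
    have s3 : Subsingleton (Ext T Y 3) := sub_succ i0 p0 z0 h0 Y 2 s2'
    have s5 : ∀ n, Subsingleton (Ext T Y (n + 1 + 1 + 1 + 1 + 1)) := by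
      intro n
      have q0 : Subsingleton (Ext Q Y (n + 1)) :=
        subsingleton_of_forall_eq 0 fun e => Ext.eq_zero_of_projective e
      have q1 : Subsingleton (Ext Z2 Y (n + 1 + 1)) := sub_succ i3 p3 z3 h3 Y _ q0
      have q2 : Subsingleton (Ext Z1 Y (n + 1 + 1 + 1)) := sub_succ i2 p2 z2 h2 Y _ q1
      have q3 : Subsingleton (Ext Z0 Y (n + 1 + 1 + 1 + 1)) := sub_succ i1 p1 z1 h1 Y _ q2
      exact sub_succ i0 p0 z0 h0 Y _ q3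
    rcases n with _ | _ | _ | _ | _ | n
    · exact s0
    · exact s1
    · exact s2
    · exact s3
    · exact absurd rfl hn
    · exact s5 n

end four

end Pool.Agent.W45.PM
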