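import Pool.Agent.W506.PM.Stm
import Pool.Agent.W45.PM.Cat

/-! PM-EXT (helper45, for helper506): `Ext^i(k, A)` from the two exact Koszul complexes. -/

set_option autoImplicit false

open CategoryTheory Abelian

universe u

namespace Pool.Agent.W45.PM

open Pool.Agent.W506.PM

section mods

variable {A : Type u} [Ring A]

/-- right multiplication with a matrix -/
def mulM {n r : ℕ} (M : Fin n → Fin r → A) : (Fin n → A) →ₗ[A] (Fin r → A) where
  toFun f := fun l => ∑ j, f j * M j l
  map_add' f g := by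
    funext l
    simp only [Pi.add_apply, add_mul, Finset.sum_add_distrib]
  map_smul' a f := by
    funext l
    simp only [Pi.smul_apply, smul_eq_mul, RingHom.id_apply, Finset.mul_sum, mul_assoc]

lemma mulM_apply {n r : ℕ} (M : Fin n → Fin r → A) (f : Fin n → A) (l : Fin r) :
    mulM M f l = ∑ j, f j * M j l := rfl

/-- right multiplication with a column -/
def mulV {n : ℕ} (b : Fin n → A) : (Fin n → A) →ₗ[A] A where
  toFun f := ∑ j, f j * b j
  map_add' f g := by
    simp only [Pi.add_apply, add_mul, Finset.sum_add_distrib]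
  map_smul' a f := by
    simp only [Pi.smul_apply, smul_eq_mul, RingHom.id_apply, Finset.mul_sum, mul_assoc]

lemma mulV_apply {n : ℕ} (b : Fin n → A) (f : Fin n → A) : mulV b f = ∑ j, f j * b j := rfl

/-- right multiplication with a row -/
def mulR {n : ℕ} (x : Fin n → A) : A →ₗ[A] (Fin n → A) where
  toFun a := fun j => a * x j
  map_add' a b := by
    funext l
    simp only [Pi.add_apply, add_mul]
  map_smul' a b := by
    funext l
    simp only [Pi.smul_apply, smul_eq_mul, RingHom.id_apply, mul_assoc]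

lemma mulR_apply {n : ℕ} (x : Fin n → A) (a : A) (j : Fin n) : mulR x a j = a * x j := rfl

/-- right multiplication with an element -/
def mulE (b : A) : A →ₗ[A] A where
  toFun a := a * b
  map_add' a c := add_mul _ _ _
  map_smul' a c := by simp only [smul_eq_mul, RingHom.id_apply, mul_assoc]

lemma mulE_apply (b a : A) : mulE b a = a * b := rfl

lemma sum_swap3 {n r : ℕ} (f : Fin n → A) (M : Fin n → Fin r → A) (b : Fin r → A) :
    ∑ j, f j * (∑ l, M j l * b l) = ∑ l, (∑ j, f j * M j l) * b l := by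
  simp only [Finset.mul_sum, Finset.sum_mul]
  rw [Finset.sum_comm]
  refine Finset.sum_congr rfl fun l _ => Finset.sum_congr rfl fun j _ => ?_
  rw [mul_assoc]

/-- a short exact sequence of modules -/
lemma ses {M N P : Type u} [AddCommGroup M] [Module A M] [AddCommGroup N] [Module A N]
    [AddCommGroup P] [Module A P] (i : M →ₗ[A] N) (p : N →ₗ[A] P)
    (hi : Function.Injective i) (hp : Function.Surjective p)
    (hex : ∀ y, p y = 0 ↔ ∃ x, i x = y) :
    ∃ z : ModuleCat.ofHom i ≫ ModuleCat.ofHom p = 0,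
      (ShortComplex.mk (ModuleCat.ofHom i) (ModuleCat.ofHom p) z).ShortExact := by
  have z : ModuleCat.ofHom i ≫ ModuleCat.ofHom p = 0 := by
    ext x
    exact (hex (i x)).mpr ⟨x, rfl⟩
  refine ⟨z, ?_⟩
  exact
    { exact := (ShortComplex.ShortExact.moduleCat_exact_iff_function_exact _).mpr
        (fun y => (hex y).trans Iff.rfl)
      mono_f := (ModuleCat.mono_iff_injective _).mpr hi
      epi_g := (ModuleCat.epi_iff_surjective _).mpr hp }

instance projPi (n : ℕ) : Projective (ModuleCat.of A (Fin n → A)) :=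
  ModuleCat.projective_of_categoryTheory_projective _

instance projSelf : Projective (ModuleCat.of A A) :=
  ModuleCat.projective_of_categoryTheory_projective _

end mods

section grad

variable {k : Type u} [Field k] {A : Type u} [Ring A] [Algebra k A] {𝒜 : ℕ → Submodule k A}
  {x : Fin 4 → A}

lemma one_ne (hG : IsConnectedGraded 𝒜) : (1 : A) ≠ 0 := by
  intro h
  have hs : Subsingleton A := subsingleton_of_zero_eq_one h.symm
  have hc := hG.connected
  have : Module.finrank k (𝒜 0) = 0 := Module.finrank_zero_of_subsingleton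
  omega

lemma mem_aug (hx : ∀ j, x j ∈ 𝒜 1) (j : Fin 4) : x j ∈ augIdeal 𝒜 :=
  Submodule.subset_span ⟨1, le_rfl, hx j⟩

lemma aug_gen (hgen : ∀ n, ∀ a ∈ 𝒜 (n + 1), ∃ f : Fin 4 → A, a = ∑ j, f j * x j) {a : A}
    (ha : a ∈ augIdeal 𝒜) : ∃ f : Fin 4 → A, ∑ j, f j * x j = a := by
  have h : augIdeal 𝒜 ≤ LinearMap.range (mulV x) := by
    unfold augIdeal
    rw [Submodule.span_le]
    rintro b ⟨n, hn, hb⟩
    obtain ⟨n, rfl⟩ : ∃ r, n = r + 1 := ⟨n - 1, by omega⟩
    obtain ⟨f, hf⟩ := hgen n b hb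
    exact ⟨f, hf.symm⟩
  exact h ha

/-- the positive part -/
def posP (𝒜 : ℕ → Submodule k A) : Submodule k A := ⨆ n, 𝒜 (n + 1)

lemma mul_mem_pos (hG : IsConnectedGraded 𝒜) {y : A} (hy : y ∈ 𝒜 1) (b : A) : y * b ∈ posP 𝒜 := by
  have hgm := hG.graded
  have hb : b ∈ (⨆ n, 𝒜 n) := by
    rw [hG.internal.submodule_iSup_eq_top]
    exact Submodule.mem_top
  refine Submodule.iSup_induction 𝒜 (motive := fun b => y * b ∈ posP 𝒜) hb ?_ ?_ ?_
  · intro n b hb
    have h1 : y * b ∈ 𝒜 (1 + n) := SetLike.mul_mem_graded hy hb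
    rw [add_comm] at h1
    exact Submodule.mem_iSup_of_mem n h1
  · rw [mul_zero]; exact Submodule.zero_mem _
  · intro b c hb hc
    rw [mul_add]
    exact Submodule.add_mem _ hb hc

lemma one_notMem (hG : IsConnectedGraded 𝒜) : (1 : A) ∉ posP 𝒜 := by
  intro h
  have hgm := hG.graded
  have h1 : (1 : A) ∈ 𝒜 0 := SetLike.one_mem_graded 𝒜
  have hind := hG.internal.submodule_iSupIndep
  have h2 : posP 𝒜 ≤ ⨆ (j : ℕ) (_ : j ≠ 0), 𝒜 j := by
    unfold posP
    refine iSup_le fun n => ?_
    exact le_iSup₂_of_le (n + 1) (Nat.succ_ne_zero n) le_rfl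
  have h3 := hind 0
  have h4 := Submodule.disjoint_def.mp h3 1 h1 (h2 h)
  exact one_ne hG h4

lemma decomp (hG : IsConnectedGraded 𝒜)
    (hgen : ∀ n, ∀ a ∈ 𝒜 (n + 1), ∃ f : Fin 4 → A, a = ∑ j, x j * f j) (b : A) :
    ∃ (c : k) (f : Fin 4 → A), b = algebraMap k A c * 1 + ∑ j, x j * f j := by
  have hgm := hG.graded
  have hb : b ∈ (⨆ n, 𝒜 n) := by
    rw [hG.internal.submodule_iSup_eq_top]
    exact Submodule.mem_top
  suffices h : ∃ (c : k) (f : Fin 4 → A), b = c • (1 : A) + ∑ j, x j * f j by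
    obtain ⟨c, f, h⟩ := h
    exact ⟨c, f, by rw [h, Algebra.smul_def]⟩
  refine Submodule.iSup_induction 𝒜 (motive := fun b => ∃ (c : k) (f : Fin 4 → A),
    b = c • (1 : A) + ∑ j, x j * f j) hb ?_ ?_ ?_
  · intro n b hb
    rcases n with _ | n
    · have h1 : (1 : A) ∈ 𝒜 0 := SetLike.one_mem_graded 𝒜
      have hne : (⟨1, h1⟩ : 𝒜 0) ≠ 0 := by
        intro h
        exact one_ne hG (congrArg Subtype.val h)
      obtain ⟨c, hc⟩ := (finrank_eq_one_iff_of_nonzero' _ hne).mp hG.connected ⟨b, hb⟩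
      refine ⟨c, 0, ?_⟩
      have h2 := congrArg Subtype.val hc
      simp only [SetLike.val_smul] at h2
      rw [← h2]
      simp
    · obtain ⟨f, hf⟩ := hgen n b hb
      exact ⟨0, f, by rw [zero_smul, zero_add]; exact hf⟩
  · exact ⟨0, 0, by simp⟩
  · rintro b b' ⟨c, f, rfl⟩ ⟨c', f', rfl⟩
    refine ⟨c + c', f + f', ?_⟩
    simp only [Pi.add_apply, mul_add, Finset.sum_add_distrib, add_smul]
    abel

end grad

section unop

variable {A : Type u} [Ring A] {x : Fin 4 → A} {m m' : Fin 6 → Fin 4 → A}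
  (R : LeftKos (fun j => MulOpposite.op (x j)) (fun i j => MulOpposite.op (m' i j))
      (fun i j => MulOpposite.op (m i j)))

include R

lemma rex1 (b : Fin 4 → A) (hb : ∑ j, x j * b j = 0) :
    ∃ c : Fin 6 → A, ∀ j, b j = ∑ i, m' i j * c i := by
  obtain ⟨g, hg⟩ := R.ex1 (fun j => MulOpposite.op (b j)) (by
    have := congrArg MulOpposite.op hb
    rw [Finset.op_sum] at this
    simpa using this)
  refine ⟨fun i => MulOpposite.unop (g i), fun j => ?_⟩
  have := congrArg MulOpposite.unop (hg j)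
  rw [Finset.unop_sum] at this
  simpa using this

lemma rex2 (c : Fin 6 → A) (hc : ∀ j, ∑ i, m' i j * c i = 0) :
    ∃ b : Fin 4 → A, ∀ i, c i = ∑ j, m i j * b j := by
  obtain ⟨g, hg⟩ := R.ex2 (fun j => MulOpposite.op (c j)) (fun j => by
    have := congrArg MulOpposite.op (hc j)
    rw [Finset.op_sum] at this
    simpa using this)
  refine ⟨fun i => MulOpposite.unop (g i), fun j => ?_⟩
  have := congrArg MulOpposite.unop (hg j)
  rw [Finset.unop_sum] at this
  simpa using this

lemma rex3 (b : Fin 4 → A) (hb : ∀ i, ∑ j, m i j * b j = 0) :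
    ∃ h : A, ∀ j, b j = x j * h := by
  obtain ⟨g, hg⟩ := R.ex3 (fun j => MulOpposite.op (b j)) (fun j => by
    have := congrArg MulOpposite.op (hb j)
    rw [Finset.op_sum] at this
    simpa using this)
  refine ⟨MulOpposite.unop g, fun j => ?_⟩
  have := congrArg MulOpposite.unop (hg j)
  simpa using this

lemma rex4 (h : A) (hh : ∀ j, x j * h = 0) : h = 0 := by
  have := R.ex4 (MulOpposite.op h) (fun j => by
    rw [← MulOpposite.op_mul, hh j, MulOpposite.op_zero])
  simpa using congrArg MulOpposite.unop this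

end unop

theorem ext : TaskEXT.{u} := by
  intro k _ A _ _ 𝒜 x m m' hG hx hgl hgr L R
  -- the modules
  let Z0 : Submodule A A := augIdeal 𝒜
  let Z1 : Submodule A (Fin 4 → A) := LinearMap.ker (mulV x)
  let Z2 : Submodule A (Fin 6 → A) := LinearMap.ker (mulM m)
  have hxZ : ∀ j, x j ∈ Z0 := mem_aug hx
  have hm1 : ∀ f, mulV x f ∈ Z0 := fun f => by
    rw [mulV_apply]
    exact Submodule.sum_mem _ fun j _ => Z0.smul_mem (f j) (hxZ j)
  have hm2 : ∀ g, mulM m g ∈ Z1 := fun g => by
    rw [LinearMap.mem_ker, mulV_apply]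
    simp only [mulM_apply]
    rw [← sum_swap3]
    simp only [L.c1, mul_zero, Finset.sum_const_zero]
  have hm3 : ∀ f, mulM (fun j i => m' i j) f ∈ Z2 := fun f => by
    rw [LinearMap.mem_ker]
    funext l
    rw [mulM_apply]
    simp only [mulM_apply]
    rw [← sum_swap3 f (fun j i => m' i j) (fun i => m i l)]
    simp only [L.c2, mul_zero, Finset.sum_const_zero]
    rfl
  -- the short exact sequences
  obtain ⟨z0, h0⟩ := ses (A := A) Z0.subtype Z0.mkQ Z0.injective_subtype (Submodule.mkQ_surjective _)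
    (fun y => by
      rw [Submodule.mkQ_apply, Submodule.Quotient.mk_eq_zero]
      exact ⟨fun h => ⟨⟨y, h⟩, rfl⟩, fun ⟨z, hz⟩ => hz ▸ z.2⟩)
  obtain ⟨z1, h1⟩ := ses (A := A) Z1.subtype ((mulV x).codRestrict Z0 hm1) Z1.injective_subtype
    (fun z => by
      obtain ⟨f, hf⟩ := aug_gen hgl z.2
      exact ⟨f, Subtype.ext hf⟩)
    (fun y => by
      rw [Subtype.ext_iff]
      exact ⟨fun h => ⟨⟨y, h⟩, rfl⟩, fun ⟨z, hz⟩ => hz ▸ z.2⟩)
  obtain ⟨z2, h2⟩ := ses (A := A) Z2.subtype ((mulM m).codRestrict Z1 hm2) Z2.injective_subtype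
    (fun z => by
      obtain ⟨g, hg⟩ := L.ex1 z.1 z.2
      exact ⟨g, Subtype.ext (funext fun j => (hg j).symm)⟩)
    (fun y => by
      rw [Subtype.ext_iff]
      exact ⟨fun h => ⟨⟨y, h⟩, rfl⟩, fun ⟨z, hz⟩ => hz ▸ z.2⟩)
  obtain ⟨z3, h3⟩ := ses (A := A) (mulR x) ((mulM (fun j i => m' i j)).codRestrict Z2 hm3)
    (fun a b hab => by
      have h := L.ex4 (a - b) (fun j => by
        rw [sub_mul, sub_eq_zero]
        exact congrFun hab j)
      exact sub_eq_zero.mp h)
    (fun z => by
      obtain ⟨f, hf⟩ := L.ex2 z.1 (fun j => congrFun z.2 j)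
      exact ⟨f, Subtype.ext (funext fun j => (hf j).symm)⟩)
    (fun y => by
      rw [Subtype.ext_iff]
      constructor
      · intro h
        obtain ⟨a, ha⟩ := L.ex3 y (fun i => congrFun h i)
        exact ⟨a, funext fun j => (ha j).symm⟩
      · rintro ⟨a, rfl⟩
        change mulM (fun j i => m' i j) (mulR x a) = 0
        funext i
        rw [mulM_apply]
        simp only [mulR_apply, mul_assoc]
        rw [← Finset.mul_sum, L.c3, mul_zero]
        rfl)
  refine main_cat (k := k) (T := trivMod 𝒜) _ _ z0 h0 _ _ z1 h1 _ _ z2 h2 _ _ z3 h3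
    (ModuleCat.of A A) ?_ ?_ ?_ ?_ (𝟙 (ModuleCat.of A A)) ?_ ?_
  · -- Hom(T, A) = 0
    intro f
    have key : ∀ F : (A ⧸ Z0) →ₗ[A] A, F = 0 := by
      intro F
      have hb : ∀ j, x j * F (Submodule.Quotient.mk 1) = 0 := by
        intro j
        rw [← smul_eq_mul, ← map_smul, ← Submodule.Quotient.mk_smul, smul_eq_mul, mul_one,
          (Submodule.Quotient.mk_eq_zero _).mpr (hxZ j), map_zero]
      have hb0 := rex4 R _ hb
      refine LinearMap.ext fun y => ?_
      obtain ⟨y, rfl⟩ := Submodule.Quotient.mk_surjective _ y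
      have hy : (Submodule.Quotient.mk y : A ⧸ Z0) = y • (Submodule.Quotient.mk 1 : A ⧸ Z0) := by
        rw [← Submodule.Quotient.mk_smul, smul_eq_mul, mul_one]
      rw [hy, map_smul, hb0, smul_zero]
      rfl
    exact ModuleCat.hom_ext (key f.hom)
  · intro φ
    obtain ⟨h, hh⟩ := rex3 R (fun j => φ.hom ⟨x j, hxZ j⟩) (fun i => by
      have : ∑ j, m i j * φ.hom ⟨x j, hxZ j⟩ = φ.hom (∑ j, m i j • (⟨x j, hxZ j⟩ : Z0)) := by
        rw [map_sum]
        exact Finset.sum_congr rfl fun j _ => (map_smul φ.hom _ _).symm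
      rw [this]
      have h0 : ∑ j, m i j • (⟨x j, hxZ j⟩ : Z0) = 0 := by
        apply Subtype.ext
        rw [AddSubmonoidClass.coe_finsetSum]
        exact L.c1 i
      rw [h0, map_zero])
    refine ⟨ModuleCat.ofHom (mulE h), ?_⟩
    ext z
    obtain ⟨f, hf⟩ := aug_gen hgl z.2
    have hz : z = ∑ j, f j • (⟨x j, hxZ j⟩ : Z0) := by
      apply Subtype.ext
      rw [AddSubmonoidClass.coe_finsetSum]
      exact hf.symm
    change (z : A) * h = φ.hom z
    conv_rhs => rw [hz, map_sum]
    rw [← hf, Finset.sum_mul]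
    refine Finset.sum_congr rfl fun j _ => ?_
    rw [map_smul, hh j, smul_eq_mul, mul_assoc]
  · intro φ
    have hmem : ∀ i, m i ∈ Z1 := fun i => L.c1 i
    obtain ⟨b, hb⟩ := rex2 R (fun i => φ.hom ⟨m i, hmem i⟩) (fun j => by
      have : ∑ i, m' i j * φ.hom ⟨m i, hmem i⟩ = φ.hom (∑ i, m' i j • (⟨m i, hmem i⟩ : Z1)) := by
        rw [map_sum]
        exact Finset.sum_congr rfl fun j _ => (map_smul φ.hom _ _).symm
      rw [this]
      have h0 : ∑ i, m' i j • (⟨m i, hmem i⟩ : Z1) = 0 := by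
        apply Subtype.ext
        rw [AddSubmonoidClass.coe_finsetSum]
        funext l
        rw [Finset.sum_apply]
        exact L.c2 j l
      rw [h0, map_zero])
    refine ⟨ModuleCat.ofHom (mulV b), ?_⟩
    ext z
    obtain ⟨g, hg⟩ := L.ex1 z.1 z.2
    have hz : z = ∑ i, g i • (⟨m i, hmem i⟩ : Z1) := by
      apply Subtype.ext
      rw [AddSubmonoidClass.coe_finsetSum]
      funext l
      rw [Finset.sum_apply]
      exact hg l
    change mulV b z.1 = φ.hom z
    conv_rhs => rw [hz, map_sum]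
    rw [mulV_apply]
    simp only [hg]
    rw [← sum_swap3]
    refine Finset.sum_congr rfl fun i _ => ?_
    rw [map_smul, hb i, smul_eq_mul]
  · intro φ
    have hmem : ∀ j, (fun i => m' i j) ∈ Z2 := fun j => funext fun l => L.c2 j l
    obtain ⟨c, hc⟩ := rex1 R (fun j => φ.hom ⟨fun i => m' i j, hmem j⟩) (by
      have : ∑ j, x j * φ.hom ⟨fun i => m' i j, hmem j⟩ =
          φ.hom (∑ j, x j • (⟨fun i => m' i j, hmem j⟩ : Z2)) := by
        rw [map_sum]
        exact Finset.sum_congr rfl fun j _ => (map_smul φ.hom _ _).symm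
      rw [this]
      have h0 : ∑ j, x j • (⟨fun i => m' i j, hmem j⟩ : Z2) = 0 := by
        apply Subtype.ext
        rw [AddSubmonoidClass.coe_finsetSum]
        funext l
        rw [Finset.sum_apply]
        exact L.c3 l
      rw [h0, map_zero])
    refine ⟨ModuleCat.ofHom (mulV c), ?_⟩
    ext z
    obtain ⟨f, hf⟩ := L.ex2 z.1 (fun j => congrFun z.2 j)
    have hz : z = ∑ j, f j • (⟨fun i => m' i j, hmem j⟩ : Z2) := by
      apply Subtype.ext
      rw [AddSubmonoidClass.coe_finsetSum]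
      funext l
      rw [Finset.sum_apply]
      exact hf l
    change mulV c z.1 = φ.hom z
    conv_rhs => rw [hz, map_sum]
    rw [mulV_apply]
    simp only [hf]
    rw [← sum_swap3 f (fun j i => m' i j) c]
    refine Finset.sum_congr rfl fun j _ => ?_
    rw [map_smul, hc j, smul_eq_mul]
  · intro g hg
    have h1 : g.hom (mulR x 1) = 1 := by
      have := congrArg (fun φ => φ.hom (1 : A)) hg
      exact this
    have h2 : g.hom (mulR x 1) = ∑ j, x j * g.hom (Pi.single j 1) := by
      have h3 : mulR x 1 = ∑ j, x j • (Pi.single j 1 : Fin 4 → A) := by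
        funext l
        rw [mulR_apply, one_mul, Finset.sum_apply]
        simp [Pi.single_apply]
      rw [h3, map_sum]
      exact Finset.sum_congr rfl fun j _ => map_smul g.hom _ _
    apply one_notMem hG
    rw [← h1, h2]
    exact Submodule.sum_mem _ fun j _ => mul_mem_pos hG (hx j) _
  · intro f
    obtain ⟨c, b, hb⟩ := decomp hG hgr (f.hom (1 : A))
    refine ⟨c, ModuleCat.ofHom (mulV b), ?_⟩
    refine ModuleCat.hom_ext (LinearMap.ext_ring ?_)
    change f.hom (1 : A) = algebraMap k A c * (1 : A) + mulV b (mulR x 1)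
    rw [hb, mulV_apply]
    simp only [mulR_apply, one_mul]

end Pool.Agent.W45.PM
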